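import Mathlib
import Pool.Agent.V11308.SixThreeDiv

/-!
MP_49e939_nt, Q1 (Sun 2011).  With `t_k = C(6k,3k) C(3k,k)` and
`a(n) = (1/((2n-1) C(3n,n))) * ∑_{k ≤ n} t_k t_{n-k}` (a rational number), for every `n ≥ 1`
there is an integer `q` with `a(n) = 8 q`, and `q` is odd if and only if `n` is a power of two.
-/

namespace Pool.Agent.Results.MP_49e939_nt.SunConjecture

open Finset

/-- `t_k = C(6k,3k) C(3k,k)` -/
def t (k : ℕ) : ℕ := (6 * k).choose (3 * k) * (3 * k).choose k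

/-- `a(n) = (1/((2n-1) C(3n,n))) ∑_{k=0}^n t_k t_{n-k}`, a rational number -/
def a (n : ℕ) : ℚ :=
  1 / ((2 * (n : ℚ) - 1) * ((3 * n).choose n : ℚ)) *
    ∑ k ∈ range (n + 1), (t k : ℚ) * (t (n - k) : ℚ)

/-- Sun's conjecture: for every `n ≥ 1`, `a(n)` is an integer divisible by `8`, and the
integer `a(n)/8` is odd iff `n` is a power of two. -/
theorem result : ∀ n : ℕ, 1 ≤ n →
    ∃ q : ℤ, a n = ((8 * q : ℤ) : ℚ) ∧ (Odd q ↔ ∃ j : ℕ, n = 2 ^ j) := by
  intro n hn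
  obtain ⟨q, hq⟩ := V11308.SixThree.eight_mul_X_dvd n hn
  refine ⟨(q : ℤ), ?_, ?_⟩
  · have hS : (∑ k ∈ range (n + 1), (t k : ℚ) * (t (n - k) : ℚ)) =
        ((V11308.SixThree.S n : ℕ) : ℚ) := by
      unfold V11308.SixThree.S
      push_cast
      rfl
    have hX : ((V11308.SixThree.X n : ℕ) : ℚ) =
        (2 * (n : ℚ) - 1) * ((3 * n).choose n : ℚ) := by
      unfold V11308.SixThree.X
      rw [Nat.cast_mul, Nat.cast_sub (by omega)]
      push_cast
      ring
    have hX0 : ((V11308.SixThree.X n : ℕ) : ℚ) ≠ 0 := by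
      exact_mod_cast (V11308.SixThree.X_pos n hn).ne'
    unfold a
    rw [hS, ← hX, hq]
    push_cast
    field_simp
  · rw [Int.odd_coe_nat]
    exact V11308.SixThree.odd_quot n q hn hq

end Pool.Agent.Results.MP_49e939_nt.SunConjecture
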